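import Pool.Agent.H84.GL.Basic

/-!
# Upper tail of the exit part with critical or light boundary
-/

open MeasureTheory ProbabilityTheory
open scoped ENNReal

namespace Pool.Agent.H77.GL

open Pool.Agent.H84.GL Pool.Agent.H99.NS

theorem pf_GHL (h_GHM : T_GHM) (h_CA2 : T_CA2) (h_CA3 : T_CA3) : T_GHL := by
  intro q hq0 hq1
  obtain ⟨c, C, θ₀, hc, hC, hθ₀, hθ₁, H⟩ := h_CA2 q hq0 hq1
  refine ⟨C, θ₀, hC, hθ₀, ?_⟩
  intro a b hab hba α θ z hα hαA hθ hθθ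
  have hx : (0 : ℝ) < ((a + 1 : ℕ) : ℝ) := by positivity
  have hy : (0 : ℝ) < ((b + 1 : ℕ) : ℝ) := by positivity
  have hxy : ((a + 1 : ℕ) : ℝ) ≤ 3 * ((b + 1 : ℕ) : ℝ) := by exact_mod_cast hab
  have hyx : ((b + 1 : ℕ) : ℝ) ≤ 3 * ((a + 1 : ℕ) : ℝ) := by exact_mod_cast hba
  obtain ⟨H1, H2⟩ := H _ _ hx hy hxy hyx
  set A : ℝ := AA q (a + 1 : ℕ) (b + 1 : ℕ) with hA
  have h0 := H1 0 (by rw [abs_zero]; positivity)
  rw [Real.exp_zero, mul_one] at h0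
  have hth := H1 θ (by rw [abs_of_pos hθ]; linarith)
  have hApos : 0 < A := hq0.trans h0.1
  have hexp : 1 < Real.exp θ := Real.one_lt_exp_iff.2 hθ
  have hlt : A < A * Real.exp θ := by nlinarith
  have hratio : A * Real.exp θ / A = Real.exp θ := by
    field_simp
  have hM := h_GHM q α A (A * Real.exp θ) hq0 hq1 hα hαA h0.1 hlt hth.2 0 a b (Nat.zero_le _)
  rw [hratio, pow_zero, one_mul] at hM
  have hM' : ((1 - A) / (1 - A * Real.exp θ)) ^ (a + 1 - 0) *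
      ((1 - q / (A * Real.exp θ)) / (1 - q / A)) ^ (b + 1) =
      Real.exp (fl q (a + 1 : ℕ) (b + 1 : ℕ) A θ - fl q (a + 1 : ℕ) (b + 1 : ℕ) A 0) := by
    have := h_CA3 q A 0 θ (a + 1) (b + 1) hq0 hq1 hApos
      (by rw [Real.exp_zero, mul_one]; exact h0.1) (by rw [Real.exp_zero, mul_one]; exact h0.2)
      hth.1 hth.2
    rw [Real.exp_zero, mul_one] at this
    exact this
  rw [hM'] at hM
  have h2 := (H2 0 θ (by linarith) hθ.le (by linarith)).2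
  set g : ℝ := gg q (a + 1 : ℕ) (b + 1 : ℕ) with hg
  have hmeas : Measurable (fun x : (ℕ → ℕ) × (ℕ × ℕ → ℕ) => (Gh x.1 x.2 0 a b : ℝ)) :=
    (measurable_from_top (f := fun n : ℕ => (n : ℝ))).comp (measurable_Gh 0 a b)
  have hch := chernoff (PW α q) (fun x => (Gh x.1 x.2 0 a b : ℝ)) hmeas θ (g + z) hθ.le
  have hconv : ∫⁻ x, ex (θ * (Gh x.1 x.2 0 a b : ℝ)) ∂(PW α q) ≤
      ex (fl q (a + 1 : ℕ) (b + 1 : ℕ) A θ - fl q (a + 1 : ℕ) (b + 1 : ℕ) A 0) := by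
    refine le_trans (le_of_eq (lintegral_congr fun x => ?_)) hM
    unfold ex
    rw [← Real.exp_nat_mul, mul_comm]
  calc PW α q {x | g + z ≤ (Gh x.1 x.2 0 a b : ℝ)}
      ≤ ex (-(θ * (g + z))) * ∫⁻ x, ex (θ * (Gh x.1 x.2 0 a b : ℝ)) ∂(PW α q) := hch
    _ ≤ ex (-(θ * (g + z))) *
        ex (fl q (a + 1 : ℕ) (b + 1 : ℕ) A θ - fl q (a + 1 : ℕ) (b + 1 : ℕ) A 0) := by gcongr
    _ = ex (-(θ * (g + z)) +
        (fl q (a + 1 : ℕ) (b + 1 : ℕ) A θ - fl q (a + 1 : ℕ) (b + 1 : ℕ) A 0)) := by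
      rw [ex_add]
    _ ≤ ex (-(θ * z) + C * (a + b + 2) * θ ^ 3) := by
      apply ex_mono
      have hcast : ((a + 1 : ℕ) : ℝ) + ((b + 1 : ℕ) : ℝ) = (a : ℝ) + b + 2 := by
        push_cast
        ring
      rw [hcast] at h2
      simp only [sub_zero, ne_eq, OfNat.ofNat_ne_zero, not_false_eq_true, zero_pow] at h2
      nlinarith [h2]

end Pool.Agent.H77.GL
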