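import Pool.Agent.H84.GL.Basic

/-!
# Stochastic monotonicity for functions of finitely many coordinates
-/

open MeasureTheory ProbabilityTheory
open scoped ENNReal

namespace Pool.Agent.H77.GL

open Pool.Agent.H84.GL Pool.Agent.H99.NS

/-- Put `x0` in front of the sequence `xs`. -/
def cns (x0 : ℕ) (xs : ℕ → ℕ) : ℕ → ℕ
  | 0 => x0
  | n + 1 => xs n

lemma measurable_cns : Measurable (fun p : ℕ × (ℕ → ℕ) => cns p.1 p.2) := by
  refine measurable_pi_lambda _ fun n => ?_
  cases n with
  | zero => exact measurable_fst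
  | succ n => exact (measurable_pi_apply n).comp measurable_snd

lemma cns_head (x : ℕ → ℕ) : cns (x 0) (fun n => x (n + 1)) = x := by
  funext n
  cases n with
  | zero => rfl
  | succ n => rfl

theorem pf_MOP (h_SH1 : T_SH1) (h_MO1 : T_MO1) : T_MOP := by
  intro a b ha hab hb n
  induction n with
  | zero =>
    intro f hf hm hloc
    have h0 : ∀ x, f x = f (fun _ => 0) := fun x => hloc x _ (by intro i hi; omega)
    have h1 : ∀ c : ℝ, ∫⁻ x, f x ∂(P1 c) = f (fun _ => 0) := by
      intro c
      rw [lintegral_congr h0, lintegral_const, measure_univ, mul_one]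
    rw [h1, h1]
  | succ n ih =>
    intro f hf hm hloc
    have hmeas : Measurable (fun p : ℕ × (ℕ → ℕ) => f (cns p.1 p.2)) := hf.comp measurable_cns
    have hpsi : Measurable (fun x : ℕ → ℕ => (x 0, fun n => x (n + 1))) := by fun_prop
    have key : ∀ c : ℝ, ∫⁻ x, f x ∂(P1 c)
        = ∫⁻ x0, ∫⁻ xs, f (cns x0 xs) ∂(P1 c) ∂(geo c) := by
      intro c
      have h1 : ∫⁻ p, f (cns p.1 p.2) ∂((geo c).prod (P1 c))
          = ∫⁻ x0, ∫⁻ xs, f (cns x0 xs) ∂(P1 c) ∂(geo c) :=
        lintegral_prod _ hmeas.aemeasurable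
      rw [← h1, ← h_SH1 c, lintegral_map hmeas hpsi]
      refine lintegral_congr fun x => ?_
      simp only [cns_head]
    rw [key a, key b]
    have hstep : ∀ x0 : ℕ, ∫⁻ xs, f (cns x0 xs) ∂(P1 a) ≤ ∫⁻ xs, f (cns x0 xs) ∂(P1 b) := by
      intro x0
      refine ih (fun xs => f (cns x0 xs)) ?_ ?_ ?_
      · exact hmeas.comp (measurable_const.prodMk measurable_id)
      · intro xs ys h
        apply hm
        intro m
        cases m with
        | zero => exact le_rfl
        | succ m => exact h m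
      · intro xs ys h
        apply hloc
        intro i hi
        cases i with
        | zero => rfl
        | succ i => exact h i (by omega)
    calc ∫⁻ x0, ∫⁻ xs, f (cns x0 xs) ∂(P1 a) ∂(geo a)
        ≤ ∫⁻ x0, ∫⁻ xs, f (cns x0 xs) ∂(P1 b) ∂(geo a) := lintegral_mono fun x0 => hstep x0
      _ ≤ ∫⁻ x0, ∫⁻ xs, f (cns x0 xs) ∂(P1 b) ∂(geo b) := by
        refine h_MO1 a b ha hab hb (fun x0 => ∫⁻ xs, f (cns x0 xs) ∂(P1 b)) ?_
        intro x0 y0 h
        refine lintegral_mono fun xs => ?_
        apply hm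
        intro m
        cases m with
        | zero => exact h
        | succ m => exact le_rfl

end Pool.Agent.H77.GL
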