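import Pool.Agent.H84.GL.Targets2

/-!
# The Paley-Zygmund inequality
-/

open MeasureTheory ProbabilityTheory
open scoped ENNReal

namespace Pool.Agent.H77.GL

open Pool.Agent.H84.GL Pool.Agent.H99.NS

lemma amgm (y : ℝ≥0∞) (t : ℝ) (ht : 0 < t) :
    y ≤ ENNReal.ofReal (t / 2) * y ^ 2 + ENNReal.ofReal (1 / (2 * t)) := by
  rcases eq_or_ne y ∞ with h | h
  · subst h
    have : ENNReal.ofReal (t / 2) * (⊤ : ℝ≥0∞) ^ 2 = ⊤ := by
      rw [ENNReal.top_pow two_ne_zero, ENNReal.mul_top]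
      have : 0 < ENNReal.ofReal (t / 2) := ENNReal.ofReal_pos.2 (by positivity)
      exact this.ne'
    rw [this]
    simp
  · obtain ⟨z, hz0, rfl⟩ : ∃ z : ℝ, 0 ≤ z ∧ y = ENNReal.ofReal z :=
      ⟨y.toReal, ENNReal.toReal_nonneg, (ENNReal.ofReal_toReal h).symm⟩
    rw [← ENNReal.ofReal_pow hz0, ← ENNReal.ofReal_mul (by positivity),
      ← ENNReal.ofReal_add (by positivity) (by positivity)]
    apply ENNReal.ofReal_le_ofReal
    have h1 : t / 2 * z ^ 2 + 1 / (2 * t) - z = (t * z - 1) ^ 2 / (2 * t) := by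
      field_simp
      ring
    have h2 : 0 ≤ (t * z - 1) ^ 2 / (2 * t) := by positivity
    linarith

theorem pf_PZ : T_PZ := by
  intro Ω _ μ _ f hf A B hA hB hEf hEf2
  set S : Set Ω := {ω | ENNReal.ofReal (A / 2) ≤ f ω} with hS
  have hSm : MeasurableSet S := measurableSet_le measurable_const hf
  set t : ℝ := A / (2 * B) with ht
  have htpos : 0 < t := by positivity
  have hpt : ∀ ω, f ω ≤ ENNReal.ofReal (A / 2) + (ENNReal.ofReal (t / 2) * (f ω) ^ 2 +
      S.indicator (fun _ => ENNReal.ofReal (1 / (2 * t))) ω) := by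
    intro ω
    by_cases h : ω ∈ S
    · rw [Set.indicator_of_mem h]
      exact (amgm (f ω) t htpos).trans le_add_self
    · have h1 : f ω ≤ ENNReal.ofReal (A / 2) := (not_le.1 h).le
      exact h1.trans le_self_add
  have hint : ∫⁻ ω, f ω ∂μ ≤ ENNReal.ofReal (A / 2) + (ENNReal.ofReal (t / 2) *
      ENNReal.ofReal B + ENNReal.ofReal (1 / (2 * t)) * μ S) := by
    calc ∫⁻ ω, f ω ∂μ ≤ ∫⁻ ω, (ENNReal.ofReal (A / 2) + (ENNReal.ofReal (t / 2) * (f ω) ^ 2 +
          S.indicator (fun _ => ENNReal.ofReal (1 / (2 * t))) ω)) ∂μ := lintegral_mono hpt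
      _ = ENNReal.ofReal (A / 2) + (ENNReal.ofReal (t / 2) * ∫⁻ ω, (f ω) ^ 2 ∂μ +
          ENNReal.ofReal (1 / (2 * t)) * μ S) := by
        rw [lintegral_add_left measurable_const, lintegral_const, measure_univ, mul_one,
          lintegral_add_left ((hf.pow_const 2).const_mul _),
          lintegral_const_mul _ (hf.pow_const 2), lintegral_indicator_const hSm]
      _ ≤ _ := by gcongr
  have hmfin : μ S ≠ ∞ := measure_ne_top μ S
  obtain ⟨m, hm0, hm⟩ : ∃ m : ℝ, 0 ≤ m ∧ μ S = ENNReal.ofReal m :=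
    ⟨(μ S).toReal, ENNReal.toReal_nonneg, (ENNReal.ofReal_toReal hmfin).symm⟩
  have h3 : ENNReal.ofReal A ≤ ENNReal.ofReal (A / 2 + (t / 2 * B + 1 / (2 * t) * m)) := by
    refine (hEf.trans hint).trans (le_of_eq ?_)
    rw [hm, ← ENNReal.ofReal_mul (by positivity), ← ENNReal.ofReal_mul (by positivity),
      ← ENNReal.ofReal_add (by positivity) (by positivity),
      ← ENNReal.ofReal_add (by positivity) (by positivity)]
  have h4 : A ≤ A / 2 + (t / 2 * B + 1 / (2 * t) * m) :=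
    (ENNReal.ofReal_le_ofReal_iff (by positivity)).1 h3
  have h5 : t / 2 * B = A / 4 := by
    rw [ht]
    field_simp
    ring
  have h6 : 1 / (2 * t) * m = B * m / A := by
    rw [ht]
    field_simp
  rw [h5, h6] at h4
  rw [hm]
  apply ENNReal.ofReal_le_ofReal
  rw [div_le_iff₀ (by positivity)]
  have h7 : A / 4 ≤ B * m / A := by linarith
  rw [le_div_iff₀ hA] at h7
  nlinarith

end Pool.Agent.H77.GL
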